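import Mathlib

/-!
# Context-preserving jumping context-sensitive grammars versus jumping monotonous grammars

We disprove `L_b(CSG) ⊆ L_j(MONG)`: the language `{a^n b^n : n ≥ 1}` is generated by a
context-sensitive grammar under the context-preserving jumping step, but by no monotonous
grammar under the jumping step (the last step of a jumping derivation of a long word may insert
the right-hand side both at the very beginning and at the very end of the remaining word).
-/

namespace Pool.Agent.Results.MP_b8a1e8_lc.JumpingCsg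

/-- A phrase-structure grammar. Letters are natural numbers. -/
structure Gram where
  /-- total alphabet -/
  V : Finset ℕ
  /-- terminal alphabet -/
  T : Finset ℕ
  T_sub : T ⊆ V
  /-- start symbol -/
  S : ℕ
  S_mem : S ∈ V
  S_not_mem : S ∉ T
  /-- rules, as pairs (left-hand side, right-hand side) -/
  P : Finset (List ℕ × List ℕ)
  P_left : ∀ r ∈ P, (∀ X ∈ r.1, X ∈ V) ∧ ∃ X ∈ r.1, X ∉ T
  P_right : ∀ r ∈ P, ∀ X ∈ r.2, X ∈ V

/-- `G` is monotonous: every rule `x → y` has `|x| ≤ |y|`. -/
def Gram.IsMONG (G : Gram) : Prop := ∀ r ∈ G.P, r.1.length ≤ r.2.length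

/-- `G` is context-sensitive: every rule has the form `α A β → α γ β` with `A` a nonterminal
and `γ ≠ ε`. -/
def Gram.IsCSG (G : Gram) : Prop :=
  ∀ r ∈ G.P, ∃ (α β γ : List ℕ) (A : ℕ), A ∈ G.V ∧ A ∉ G.T ∧ γ ≠ [] ∧
    r = (α ++ [A] ++ β, α ++ γ ++ β)

/-- The jumping step: `u x v ⇒ u' y v'` whenever `x → y` is a rule and `u v = u' v'`. -/
def Gram.JStep (G : Gram) (s t : List ℕ) : Prop :=
  ∃ x y u v u' v' : List ℕ, (x, y) ∈ G.P ∧ u ++ v = u' ++ v' ∧
    s = u ++ x ++ v ∧ t = u' ++ y ++ v'

/-- The context-preserving jumping step: `u α A β v ⇒ u' α γ β v'` whenever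
`α A β → α γ β` is a rule (`A` a nonterminal, `γ ≠ ε`) and `u α β v = u' α β v'`. -/
def Gram.BStep (G : Gram) (s t : List ℕ) : Prop :=
  ∃ (α β γ u v u' v' : List ℕ) (A : ℕ), A ∈ G.V ∧ A ∉ G.T ∧ γ ≠ [] ∧
    (α ++ [A] ++ β, α ++ γ ++ β) ∈ G.P ∧
    u ++ α ++ β ++ v = u' ++ α ++ β ++ v' ∧
    s = u ++ α ++ [A] ++ β ++ v ∧ t = u' ++ α ++ γ ++ β ++ v'

/-- The language generated with the jumping step. -/
def Gram.LJ (G : Gram) : Set (List ℕ) :=
  {w | (∀ X ∈ w, X ∈ G.T) ∧ Relation.ReflTransGen G.JStep [G.S] w}

/-- The language generated with the context-preserving jumping step. -/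
def Gram.LB (G : Gram) : Set (List ℕ) :=
  {w | (∀ X ∈ w, X ∈ G.T) ∧ Relation.ReflTransGen G.BStep [G.S] w}

/-- `{a^n b^n : n ≥ 1}` with `a = 0`, `b = 1`. -/
def K : Set (List ℕ) := {w | ∃ n, 1 ≤ n ∧ w = List.replicate n 0 ++ List.replicate n 1}

/-- The grammar `S → ab | aAb`, `aAb → aaAbb | aabb` with `a = 0`, `b = 1`, `S = 2`, `A = 3`. -/
def G0 : Gram where
  V := {0, 1, 2, 3}
  T := {0, 1}
  T_sub := by decide
  S := 2
  S_mem := by decide
  S_not_mem := by decide
  P := {([2], [0, 1]), ([2], [0, 3, 1]), ([0, 3, 1], [0, 0, 3, 1, 1]),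
    ([0, 3, 1], [0, 0, 1, 1])}
  P_left := by decide
  P_right := by decide

lemma G0_csg : G0.IsCSG := by
  intro r hr
  simp only [G0, Finset.mem_insert, Finset.mem_singleton] at hr
  rcases hr with rfl | rfl | rfl | rfl
  · exact ⟨[], [], [0, 1], 2, by decide, by decide, by simp, rfl⟩
  · exact ⟨[], [], [0, 3, 1], 2, by decide, by decide, by simp, rfl⟩
  · exact ⟨[0], [1], [0, 3, 1], 3, by decide, by decide, by simp, rfl⟩
  · exact ⟨[0], [1], [0, 1], 3, by decide, by decide, by simp, rfl⟩

/-- index description of `a^n b^n` -/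
lemma getElem_ab (n i : ℕ) (h : i < (List.replicate n 0 ++ List.replicate n 1 : List ℕ).length) :
    (List.replicate n 0 ++ List.replicate n 1 : List ℕ)[i] = if i < n then 0 else 1 := by
  rw [List.getElem_append]
  by_cases h1 : i < n <;> simp [h1]

/-- the only place where `ab` occurs in `a^n b^n` -/
lemma ab_unique (n : ℕ) (u v : List ℕ)
    (h : u ++ [0] ++ [1] ++ v = List.replicate n 0 ++ List.replicate n 1) :
    ∃ m, n = m + 1 ∧ u = List.replicate m 0 ∧ v = List.replicate m 1 := by
  have hlen : u.length + 1 + 1 + v.length = n + n := by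
    have := congrArg List.length h
    simp only [List.length_append, List.length_cons, List.length_nil,
      List.length_replicate] at this
    omega
  have key : ∀ i (hi : i < (u ++ [0] ++ [1] ++ v).length),
      (u ++ [0] ++ [1] ++ v)[i] = if i < n then 0 else 1 := by
    intro i hi
    have hi' : i < (List.replicate n 0 ++ List.replicate n 1 : List ℕ).length := by
      rw [← h]; exact hi
    rw [← getElem_ab n i hi']
    simp only [h]
  have h0 := key u.length (by simp)
  have h1 := key (u.length + 1) (by simp)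
  have h0' : (u ++ [0] ++ [1] ++ v)[u.length]'(by simp) = 0 := by
    simp
  have h1' : (u ++ [0] ++ [1] ++ v)[u.length + 1]'(by simp) = 1 := by
    simp
  rw [h0'] at h0
  rw [h1'] at h1
  have hu : u.length < n := by
    by_contra hc
    rw [if_neg hc] at h0
    exact absurd h0 (by decide)
  have hu2 : ¬ (u.length + 1 < n) := by
    intro hc
    rw [if_pos hc] at h1
    exact absurd h1 (by decide)
  obtain ⟨m, rfl⟩ : ∃ m, n = m + 1 := ⟨n - 1, by omega⟩
  have hum : u.length = m := by omega
  have hvm : v.length = m := by omega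
  refine ⟨m, rfl, ?_, ?_⟩
  · rw [List.eq_replicate_iff]
    refine ⟨hum, ?_⟩
    intro b hb
    obtain ⟨i, hi, rfl⟩ := List.getElem_of_mem hb
    have := key i (by simp; omega)
    rw [if_pos (by omega)] at this
    rw [← this]
    simp [hi]
  · rw [List.eq_replicate_iff]
    refine ⟨hvm, ?_⟩
    intro b hb
    obtain ⟨i, hi, rfl⟩ := List.getElem_of_mem hb
    have := key (u.length + 2 + i) (by simp; omega)
    rw [if_neg (by omega)] at this
    rw [← this]
    rw [List.getElem_append_right (by simp)]
    congr 1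
    simp


/-- splitting at a unique letter -/
lemma split_unique {a : ℕ} : ∀ {l₁ l₂ m₁ m₂ : List ℕ}, l₁ ++ a :: l₂ = m₁ ++ a :: m₂ →
    a ∉ m₁ → a ∉ m₂ → l₁ = m₁ ∧ l₂ = m₂
  | [], l₂, [], m₂, h, _, _ => by simpa using h
  | [], l₂, b :: m₁, m₂, h, h1, _ => by
      simp only [List.nil_append, List.cons_append, List.cons.injEq] at h
      exact absurd (by simp [h.1]) h1
  | b :: l₁, l₂, [], m₂, h, _, h2 => by
      simp only [List.nil_append, List.cons_append, List.cons.injEq] at h
      exact absurd (by rw [← h.2]; simp) h2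
  | b :: l₁, l₂, c :: m₁, m₂, h, h1, h2 => by
      simp only [List.cons_append, List.cons.injEq] at h
      obtain ⟨hbc, h⟩ := h
      have := split_unique h (fun hc => h1 (List.mem_cons_of_mem _ hc)) h2
      exact ⟨by rw [hbc, this.1], this.2⟩

/-- The invariant of derivations of `G0`. -/
def Inv (s : List ℕ) : Prop :=
  s = [2] ∨ (∃ n, 1 ≤ n ∧ s = List.replicate n 0 ++ 3 :: List.replicate n 1) ∨ s ∈ K

lemma lhs_cases {α β γ : List ℕ} {A : ℕ} (hA : A ∉ G0.T) 
    (h : (α ++ [A] ++ β, α ++ γ ++ β) ∈ G0.P) :
    (α = [] ∧ β = [] ∧ A = 2 ∧ (γ = [0, 1] ∨ γ = [0, 3, 1])) ∨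
    (α = [0] ∧ β = [1] ∧ A = 3 ∧ (γ = [0, 1] ∨ γ = [0, 3, 1])) := by
  have hA0 : A ≠ 0 := by rintro rfl; exact hA (by decide)
  have hA1 : A ≠ 1 := by rintro rfl; exact hA (by decide)
  simp only [G0, Finset.mem_insert, Finset.mem_singleton, Prod.mk.injEq] at h
  have one : ∀ γ' : List ℕ, α ++ [A] ++ β = [2] → α ++ γ ++ β = γ' →
      α = [] ∧ β = [] ∧ A = 2 ∧ γ = γ' := by
    intro γ' h1 h2
    rcases α with _ | ⟨a, α⟩
    · simp at h1
      obtain ⟨rfl, rfl⟩ := h1
      simpa using h2
    · exfalso
      have := congrArg List.length h1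
      simp at this
  have two : ∀ γ' : List ℕ, α ++ [A] ++ β = [0, 3, 1] → α ++ γ ++ β = [0] ++ γ' ++ [1] →
      α = [0] ∧ β = [1] ∧ A = 3 ∧ γ = γ' := by
    intro γ' h1 h2
    rcases α with _ | ⟨a, _ | ⟨b, _ | ⟨c, α⟩⟩⟩
    · simp at h1; exact absurd h1.1 hA0
    · simp at h1
      obtain ⟨rfl, rfl, rfl⟩ := h1
      simpa using h2
    · simp at h1; exact absurd h1.2.2.1 hA1
    · exfalso
      have := congrArg List.length h1
      simp at this
  rcases h with ⟨h1, h2⟩ | ⟨h1, h2⟩ | ⟨h1, h2⟩ | ⟨h1, h2⟩
  · have := one _ h1 h2; tauto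
  · have := one _ h1 h2; tauto
  · have := two [0, 3, 1] h1 h2; tauto
  · have := two [0, 1] h1 h2; tauto

lemma inv_step {s t : List ℕ} (hs : Inv s) (h : G0.BStep s t) : Inv t := by
  obtain ⟨α, β, γ, u, v, u', v', A, -, hA, -, hP, huv, rfl, rfl⟩ := h
  rcases lhs_cases hA hP with ⟨rfl, rfl, rfl, hγ⟩ | ⟨rfl, rfl, rfl, hγ⟩
  · -- rule with left-hand side `S`
    rcases hs with hs | ⟨n, -, hs⟩ | ⟨n, -, hs⟩
    · have hlen := congrArg List.length hs
      simp only [List.length_append, List.length_cons, List.length_nil] at hlen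
      obtain rfl : u = [] := List.length_eq_zero_iff.1 (by omega)
      obtain rfl : v = [] := List.length_eq_zero_iff.1 (by omega)
      simp at huv
      obtain ⟨rfl, rfl⟩ := huv
      rcases hγ with rfl | rfl
      · right; right; exact ⟨1, le_rfl, rfl⟩
      · right; left; exact ⟨1, le_rfl, rfl⟩
    · exfalso
      have : (2 : ℕ) ∈ List.replicate n 0 ++ 3 :: List.replicate n 1 := by
        rw [← hs]; simp
      simp at this
    · exfalso
      have : (2 : ℕ) ∈ List.replicate n 0 ++ List.replicate n 1 := by
        rw [← hs]; simp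
      simp at this
  · rcases hs with hs | ⟨n, -, hs⟩ | ⟨n, -, hs⟩
    · exfalso
      have := congrArg List.length hs
      simp at this
      omega
    · have hs' : (u ++ [0]) ++ 3 :: ([1] ++ v) =
          List.replicate n 0 ++ 3 :: List.replicate n 1 := by
        rw [← hs]; simp
      obtain ⟨h1, h2⟩ := split_unique hs' (by simp) (by simp)
      have h3 : u' ++ [0] ++ [1] ++ v' = List.replicate n 0 ++ List.replicate n 1 := by
        rw [← huv, ← h1, ← h2]; simp
      obtain ⟨m, rfl, rfl, rfl⟩ := ab_unique n u' v' h3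
      have e0 : ∀ k, List.replicate k (0 : ℕ) ++ [0] = List.replicate (k + 1) 0 := by
        intro k; rw [← List.replicate_succ']
      rcases hγ with rfl | rfl
      · right; right
        refine ⟨m + 2, by omega, ?_⟩
        rw [show List.replicate (m + 2) (0 : ℕ) = List.replicate m 0 ++ [0] ++ [0] by
          rw [e0, e0]]
        simp [List.replicate_succ]
      · right; left
        refine ⟨m + 2, by omega, ?_⟩
        rw [show List.replicate (m + 2) (0 : ℕ) = List.replicate m 0 ++ [0] ++ [0] by
          rw [e0, e0]]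
        simp [List.replicate_succ]
    · exfalso
      have : (3 : ℕ) ∈ List.replicate n 0 ++ List.replicate n 1 := by
        rw [← hs]; simp
      simp at this

lemma inv_reach {s : List ℕ} (h : Relation.ReflTransGen G0.BStep [2] s) : Inv s := by
  induction h with
  | refl => exact Or.inl rfl
  | tail _ h2 ih => exact inv_step ih h2

lemma LB_sub : G0.LB ⊆ K := by
  rintro w ⟨hw, hr⟩
  rcases inv_reach hr with rfl | ⟨n, -, rfl⟩ | h
  · exact absurd (hw 2 (by simp)) (by decide)
  · exact absurd (hw 3 (by simp)) (by decide)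
  · exact h

lemma reach_mid (n : ℕ) :
    Relation.ReflTransGen G0.BStep [2]
      (List.replicate (n + 1) 0 ++ 3 :: List.replicate (n + 1) 1) := by
  induction n with
  | zero =>
      refine Relation.ReflTransGen.single ?_
      exact ⟨[], [], [0, 3, 1], [], [], [], [], 2, by decide, by decide, by simp, by decide,
        rfl, rfl, rfl⟩
  | succ n ih =>
      refine ih.tail ?_
      refine ⟨[0], [1], [0, 3, 1], List.replicate n 0, List.replicate n 1,
        List.replicate n 0, List.replicate n 1, 3, by decide, by decide, by simp, by decide,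
        rfl, ?_, ?_⟩
      · rw [List.replicate_succ' (n := n) (a := 0)]
        simp [List.replicate_succ]
      · rw [List.replicate_succ' (n := n + 1) (a := 0), List.replicate_succ' (n := n) (a := 0)]
        simp [List.replicate_succ]

lemma K_sub : K ⊆ G0.LB := by
  rintro w ⟨n, hn, rfl⟩
  refine ⟨?_, ?_⟩
  · intro X hX
    simp only [List.mem_append, List.mem_replicate] at hX
    rcases hX with ⟨-, rfl⟩ | ⟨-, rfl⟩ <;> decide
  · obtain ⟨m, rfl⟩ : ∃ m, n = m + 1 := ⟨n - 1, by omega⟩
    rcases m with _ | m
    · refine Relation.ReflTransGen.single ?_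
      exact ⟨[], [], [0, 1], [], [], [], [], 2, by decide, by decide, by simp, by decide,
        rfl, rfl, rfl⟩
    · refine (reach_mid m).tail ?_
      refine ⟨[0], [1], [0, 1], List.replicate m 0, List.replicate m 1,
        List.replicate m 0, List.replicate m 1, 3, by decide, by decide, by simp, by decide,
        rfl, ?_, ?_⟩
      · rw [List.replicate_succ' (n := m) (a := 0)]
        simp [List.replicate_succ]
      · rw [List.replicate_succ' (n := m + 1) (a := 0), List.replicate_succ' (n := m) (a := 0)]
        simp [List.replicate_succ]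

lemma LB_eq : G0.LB = K := Set.Subset.antisymm LB_sub K_sub

/-- key combinatorial fact: `y r` and `r y` cannot both be in `K` for nonempty `y`, `r` -/
lemma no_rot {y r : List ℕ} (hy : y ≠ []) (hr : r ≠ []) (h1 : y ++ r ∈ K) (h2 : r ++ y ∈ K) :
    False := by
  obtain ⟨n, hn, h1⟩ := h1
  obtain ⟨m, hm, h2⟩ := h2
  have hyl : 0 < y.length := List.length_pos_iff.2 hy
  have hrl : 0 < r.length := List.length_pos_iff.2 hr
  have k1 : ∀ i (hi : i < (y ++ r).length), (y ++ r)[i] = if i < n then 0 else 1 := by
    intro i hi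
    have hi' : i < (List.replicate n 0 ++ List.replicate n 1 : List ℕ).length := by
      rw [← h1]; exact hi
    rw [← getElem_ab n i hi']
    simp only [h1]
  have k2 : ∀ i (hi : i < (r ++ y).length), (r ++ y)[i] = if i < m then 0 else 1 := by
    intro i hi
    have hi' : i < (List.replicate m 0 ++ List.replicate m 1 : List ℕ).length := by
      rw [← h2]; exact hi
    rw [← getElem_ab m i hi']
    simp only [h2]
  have l2 : r.length + y.length = m + m := by
    have := congrArg List.length h2
    simpa using this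
  -- the last letter of `y` is `1`
  have e1 := k2 (r.length + (y.length - 1)) (by simp; omega)
  rw [if_neg (by omega)] at e1
  rw [List.getElem_append_right (by omega)] at e1
  have e2 := k1 (y.length - 1) (by simp; omega)
  rw [List.getElem_append_left (by omega)] at e2
  have e3 : y[y.length - 1]'(by omega) = 1 := by
    have h0 : r.length + (y.length - 1) - r.length = y.length - 1 := by omega
    simp only [h0] at e1
    exact e1
  rw [e3] at e2
  have hn' : n ≤ y.length - 1 := by
    by_contra hc
    rw [if_pos (by omega)] at e2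
    exact absurd e2 (by decide)
  -- the first letter of `r` is `1`
  have e4 := k1 y.length (by simp; omega)
  rw [if_neg (by omega), List.getElem_append_right le_rfl] at e4
  -- but it is `0`
  have e5 := k2 0 (by simp; omega)
  rw [if_pos (by omega), List.getElem_append_left hrl] at e5
  have e6 : r[y.length - y.length]'(by omega) = r[0]'hrl := by
    congr 1; omega
  rw [e6, e5] at e4
  exact absurd e4 (by decide)

/-- `{a^n b^n : n ≥ 1}` is not a jumping monotonous language. -/
lemma not_mong (H : Gram) (hH : H.IsMONG) : H.LJ ≠ K := by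
  intro hL
  -- a bound for the right-hand sides
  obtain ⟨B, hB⟩ : ∃ B, ∀ r ∈ H.P, r.2.length ≤ B :=
    ⟨H.P.sup (fun r => r.2.length),
      fun r hr => Finset.le_sup (f := fun r : List ℕ × List ℕ => r.2.length) hr⟩
  have hw : (List.replicate (B + 2) 0 ++ List.replicate (B + 2) 1 : List ℕ) ∈ H.LJ := by
    rw [hL]; exact ⟨B + 2, by omega, rfl⟩
  obtain ⟨hT, hr⟩ := hw
  rcases Relation.ReflTransGen.cases_tail hr with h | ⟨s, hs, x, y, u, v, u', v', hP, huv, rfl, ht⟩
  · have := congrArg List.length h
    simp at this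
    omega
  · have hyB : y.length ≤ B := hB _ hP
    have hxy : x.length ≤ y.length := hH _ hP
    have hx : x ≠ [] := by
      obtain ⟨-, X, hX, -⟩ := H.P_left _ hP
      exact List.ne_nil_of_mem hX
    have hy : y ≠ [] := by
      intro hc
      rw [hc] at hxy
      exact hx (List.length_eq_zero_iff.1 (by simpa using hxy))
    have hlen := congrArg List.length ht
    simp only [List.length_append, List.length_replicate] at hlen
    have hr : u' ++ v' ≠ [] := by
      intro hc
      have := congrArg List.length hc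
      simp only [List.length_append, List.length_nil] at this
      omega
    have hmemT : ∀ X ∈ u' ++ y ++ v', X ∈ H.T := by rw [← ht]; exact hT
    have a1 : y ++ (u' ++ v') ∈ H.LJ := by
      refine ⟨?_, hs.tail ⟨x, y, u, v, [], u' ++ v', hP, by simpa using huv, rfl, by simp⟩⟩
      intro X hX
      apply hmemT
      simp only [List.mem_append] at hX ⊢
      tauto
    have a2 : (u' ++ v') ++ y ∈ H.LJ := by
      refine ⟨?_, hs.tail ⟨x, y, u, v, u' ++ v', [], hP, by simpa using huv, rfl, by simp⟩⟩
      intro X hX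
      apply hmemT
      simp only [List.mem_append] at hX ⊢
      tauto
    rw [hL] at a1 a2
    exact no_rot hy hr a1 a2

/-- The inclusion `L_b(CSG) ⊆ L_j(MONG)` fails: there is a context-sensitive grammar `G` such
that no monotonous grammar generates, with the jumping step, the language that `G` generates
with the context-preserving jumping step. -/
theorem result : ∃ G : Gram, G.IsCSG ∧ ∀ H : Gram, H.IsMONG → H.LJ ≠ G.LB :=
  ⟨G0, G0_csg, fun H hH => by rw [LB_eq]; exact not_mong H hH⟩

end Pool.Agent.Results.MP_b8a1e8_lc.JumpingCsg
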